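import Mathlib
import Pool.Agent.Results.MP_f9eabf_al.Four
import Pool.Agent.Y70.SG.Defs

set_option autoImplicit false

namespace Pool.Agent.Y70.SG

open Matrix
open Pool.Agent.Results.MP_f9eabf_al.Four (piv pivL PNZ pprod det_list det_list_snoc PPb
  exists_perm_of_range_eq det_mul_det_perm range_get range_snoc snoc_injective
  det_shift_zero mem_spectrum_of_det idx_card)

/-! ### lists of indices attached to masks -/

/-- the increasing list of the indices selected by a mask -/
def fl (b : Fin 5 → Bool) : List (Fin 5) := (List.finRange 5).filter (fun i => b i)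

theorem fl_nodup (b : Fin 5 → Bool) : (fl b).Nodup := (List.nodup_finRange 5).filter _

theorem mem_fl (b : Fin 5 → Bool) (i : Fin 5) : i ∈ fl b ↔ b i = true := by simp [fl]

theorem range_fl (b : Fin 5 → Bool) : Set.range (fl b).get = {i | b i = true} := by
  rw [range_get]; ext x; simp [mem_fl]

/-- an injective family of indices is a reindexing of the list of its mask -/
theorem exists_equiv {κ : Type*} (f : κ → Fin 5) (hf : Function.Injective f)
    (b : Fin 5 → Bool) (hb : ∀ i, b i = true ↔ i ∈ Set.range f) :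
    ∃ e : Fin (fl b).length ≃ κ, f ∘ e = (fl b).get := by
  have hr : Set.range (fl b).get = Set.range f := by
    rw [range_fl]; ext x; exact hb x
  have hi := List.nodup_iff_injective_get.mp (fl_nodup b)
  let e1 := Equiv.ofInjective f hf
  let e2 := Equiv.ofInjective (fl b).get hi
  refine ⟨(e2.trans (Equiv.setCongr hr)).trans e1.symm, ?_⟩
  ext x
  simp only [Function.comp_apply, Equiv.trans_apply]
  have := Equiv.apply_ofInjective_symm hf ((Equiv.setCongr hr) (e2 x))
  rw [this]
  simp [e2]

theorem det_of_mask {R : Type*} [CommRing R] {κ : Type*} [Fintype κ] [DecidableEq κ]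
    (M : Matrix (Fin 5) (Fin 5) R) (f : κ → Fin 5) (hf : Function.Injective f)
    (b : Fin 5 → Bool) (hb : ∀ i, b i = true ↔ i ∈ Set.range f) :
    (M.submatrix f f).det = (M.submatrix (fl b).get (fl b).get).det := by
  obtain ⟨e, he⟩ := exists_equiv f hf b hb
  rw [← he]
  exact (Matrix.det_submatrix_equiv_self e (M.submatrix f f)).symm

theorem det_of_mask' {κ : Type*} [Fintype κ] [DecidableEq κ]
    (M : Matrix (Fin 5) (Fin 5) ℚ) (f : κ → Fin 5) (hf : Function.Injective f)
    (b : Fin 5 → Bool) (hb : ∀ i, b i = true ↔ i ∈ Set.range f) (hM : PNZ M (fl b)) :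
    (M.submatrix f f).det = pprod M (fl b) := by
  rw [det_of_mask M f hf b hb]
  have := det_list (fl b).length M (fl b).get (by rw [List.ofFn_get]; exact hM)
  rw [this, List.ofFn_get]

/-- all pivots met along the list are nonzero (boolean version) -/
def PNZb {ι : Type*} (A : Matrix ι ι ℚ) : List ι → Bool
  | [] => true
  | k :: L => decide (A k k ≠ 0) && PNZb (piv A k) L

theorem PNZb.pnz {ι : Type*} : ∀ (L : List ι) (A : Matrix ι ι ℚ), PNZb A L = true → PNZ A L
  | [], _, _ => trivial
  | k :: L, A, h => by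
    simp only [PNZb, Bool.and_eq_true, decide_eq_true_eq] at h
    exact ⟨h.1, PNZb.pnz L _ h.2⟩

theorem PPb.pprod_pos {ι : Type*} : ∀ (L : List ι) (A : Matrix ι ι ℚ), PPb A L = true → 0 < pprod A L
  | [], _, _ => one_pos
  | k :: L, A, h => by
    simp only [PPb, Bool.and_eq_true, decide_eq_true_eq] at h
    exact mul_pos h.1 (PPb.pprod_pos L _ h.2)

/-! ### strict weak sign symmetry -/

/-- elimination has positive pivots and all remaining off-diagonal pairs have positive product -/
def SElim (A : Matrix (Fin 5) (Fin 5) ℚ) : Prop :=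
  ∀ b : Fin 5 → Bool, PPb A (fl b) = true ∧
    ∀ i j, b i = false → b j = false → i ≠ j → 0 < pivL A (fl b) i j * pivL A (fl b) j i

theorem almost_pos {A : Matrix (Fin 5) (Fin 5) ℚ} (hA : SElim A) {k : ℕ} (f g : Fin k → Fin 5)
    (hf : Function.Injective f) (hg : Function.Injective g)
    (hk : (Finset.univ.image f ∩ Finset.univ.image g).card + 1 = k) :
    0 < (A.submatrix f g).det * (A.submatrix g f).det := by
  set G := Finset.univ.image f ∩ Finset.univ.image g with hG
  obtain ⟨L, hnd, hLG, hpp, hpair⟩ : ∃ L : List (Fin 5), L.Nodup ∧ L.toFinset = G ∧ PPb A L = true ∧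
      ∀ i j, i ∉ G → j ∉ G → i ≠ j → 0 < pivL A L i j * pivL A L j i := by
    obtain ⟨h1, h2⟩ := hA (fun i => decide (i ∈ G))
    refine ⟨fl (fun i => decide (i ∈ G)), fl_nodup _, ?_, h1, ?_⟩
    · ext x; simp [mem_fl]
    · intro i j hi hj hij
      exact h2 i j (by simpa using hi) (by simpa using hj) hij
  have hlen : L.length = G.card := by
    rw [← List.toFinset_card_of_nodup hnd, hLG]
  rw [← hlen] at hk
  subst hk
  have cf : (Finset.univ.image f).card = L.length + 1 := by
    rw [Finset.card_image_of_injective _ hf]; simp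
  have cg : (Finset.univ.image g).card = L.length + 1 := by
    rw [Finset.card_image_of_injective _ hg]; simp
  have sf : G ⊆ Finset.univ.image f := Finset.inter_subset_left
  have sg : G ⊆ Finset.univ.image g := Finset.inter_subset_right
  obtain ⟨i, hi⟩ := Finset.card_eq_one.mp (show (Finset.univ.image f \ G).card = 1 by
    rw [Finset.card_sdiff_of_subset sf, cf, hlen]; omega)
  obtain ⟨j, hj⟩ := Finset.card_eq_one.mp (show (Finset.univ.image g \ G).card = 1 by
    rw [Finset.card_sdiff_of_subset sg, cg, hlen]; omega)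
  have hi' : i ∈ Finset.univ.image f \ G := by rw [hi]; simp
  have hj' : j ∈ Finset.univ.image g \ G := by rw [hj]; simp
  rw [Finset.mem_sdiff] at hi' hj'
  have hij : i ≠ j := by
    rintro rfl
    exact hi'.2 (Finset.mem_inter.mpr ⟨hi'.1, hj'.1⟩)
  have ef : Finset.univ.image f = insert i G := by
    rw [← Finset.sdiff_union_of_subset sf, hi]; rfl
  have eg : Finset.univ.image g = insert j G := by
    rw [← Finset.sdiff_union_of_subset sg, hj]; rfl
  have rL : Set.range L.get = (G : Set (Fin 5)) := by rw [range_get, hLG]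
  have hLi := List.nodup_iff_injective_get.mp hnd
  have rf : Set.range f = Set.range (Fin.snoc L.get i : Fin (L.length+1) → Fin 5) := by
    rw [range_snoc, rL]
    have := congrArg (fun s : Finset (Fin 5) => (s : Set (Fin 5))) ef
    simpa using this
  have rg : Set.range g = Set.range (Fin.snoc L.get j : Fin (L.length+1) → Fin 5) := by
    rw [range_snoc, rL]
    have := congrArg (fun s : Finset (Fin 5) => (s : Set (Fin 5))) eg
    simpa using this
  obtain ⟨σ, hσ⟩ := exists_perm_of_range_eq hf (snoc_injective hLi (by rw [rL]; exact_mod_cast hi'.2)) rf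
  obtain ⟨τ, hτ⟩ := exists_perm_of_range_eq hg (snoc_injective hLi (by rw [rL]; exact_mod_cast hj'.2)) rg
  have hP : PNZ A (List.ofFn L.get) := by
    rw [List.ofFn_get]; exact Pool.Agent.Results.MP_f9eabf_al.Four.PPb.pnz _ _ hpp
  have d1 := det_list_snoc L.length A L.get i j hP
  have d2 := det_list_snoc L.length A L.get j i hP
  rw [hσ, hτ, List.ofFn_get] at d1
  rw [hσ, hτ, List.ofFn_get] at d2
  have key := det_mul_det_perm (A.submatrix f g) (A.submatrix g f) σ τ
  rw [← key]
  have k1 : ((A.submatrix f g).submatrix σ τ).det = pprod A L * pivL A L i j := by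
    rw [← d1]; rfl
  have k2 : ((A.submatrix g f).submatrix τ σ).det = pprod A L * pivL A L j i := by
    rw [← d2]; rfl
  rw [k1, k2]
  have := hpair i j hi'.2 hj'.2 hij
  have hp := PPb.pprod_pos L A hpp
  calc (0:ℚ) < (pprod A L * pprod A L) * (pivL A L i j * pivL A L j i) := mul_pos (mul_pos hp hp) this
    _ = _ := by ring

/-! ### expansion of `det (M + x)` in principal minors -/

theorem det_add_smul_one_eq {ι : Type*} [Fintype ι] [DecidableEq ι] {R : Type*} [CommRing R]
    (M : Matrix ι ι R) (x : R) :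
    (M + x • (1 : Matrix ι ι R)).det =
      ∑ s : Finset ι, x ^ (sᶜ).card * (M.submatrix (Subtype.val : s → ι) (Subtype.val : s → ι)).det := by
  let D := (detRowAlternating : (ι → R) [⋀^ι]→ₗ[R] R)
  change D (fun i => M i + (x • (1 : Matrix ι ι R)) i) = _
  rw [show (fun i => M i + (x • (1 : Matrix ι ι R)) i) = (fun i => M i) + (fun i => (x • (1 : Matrix ι ι R)) i) from rfl]
  rw [D.map_add_univ]
  refine Finset.sum_congr rfl fun s _ => ?_
  have h_smul : s.piecewise (fun i ↦ M i) (fun i ↦ (x • (1 : Matrix ι ι R)) i) =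
      fun i => (if i ∈ s then (1:R) else x) •
        s.piecewise (fun i ↦ M i) (fun i ↦ (1 : Matrix ι ι R) i) i := by
    funext i j
    simp only [Finset.piecewise, Pi.smul_apply, smul_eq_mul, ite_mul, one_mul]
    split_ifs <;> rfl
  rw [h_smul, D.map_smul_univ]
  have h1 : (∏ i, (if i ∈ s then (1:R) else x)) = x ^ (sᶜ).card := by
    rw [Finset.prod_ite]
    simp only [Finset.prod_const_one, one_mul, Finset.prod_const]
    congr 1
    congr 1
    ext i; simp
  rw [h1, smul_eq_mul]
  congr 1
  exact det_piecewise_one_eq_submatrix_det M s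

/-- a real matrix with positive principal minors has `det (M + y) > 0` for `y ≥ 0` -/
theorem det_add_pos {ι : Type*} [Fintype ι] [DecidableEq ι] (M : Matrix ι ι ℝ)
    (hM : ∀ s : Finset ι, 0 < (M.submatrix (Subtype.val : s → ι) (Subtype.val : s → ι)).det)
    {y : ℝ} (hy : 0 ≤ y) : 0 < (M + y • (1 : Matrix ι ι ℝ)).det := by
  rw [det_add_smul_one_eq]
  refine Finset.sum_pos' (fun s _ => mul_nonneg (pow_nonneg hy _) (hM s).le) ⟨Finset.univ, Finset.mem_univ _, ?_⟩
  simpa using hM Finset.univ

/-! ### unstable matrices -/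

theorem multiset_norm_bound {a : ℝ} (ha : 0 ≤ a) (s : Multiset ℂ) (h : ∀ r ∈ s, a ≤ ‖r‖) :
    a ^ (Multiset.card s) ≤ ‖s.prod‖ := by
  induction s using Multiset.induction_on with
  | empty => simp
  | cons r s ih =>
    rw [Multiset.card_cons, Multiset.prod_cons, norm_mul, pow_succ, mul_comm]
    have h1 := h r (Multiset.mem_cons_self r s)
    have h2 := ih (fun t ht => h t (Multiset.mem_cons_of_mem ht))
    exact mul_le_mul h1 h2 (pow_nonneg ha _) (norm_nonneg _)

/-- if the determinant of `A + x` is too small, `A` has an eigenvalue with negative real part -/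
theorem unstable_of_det_small {ι : Type*} [Fintype ι] [DecidableEq ι] (A : Matrix ι ι ℂ) (x : ℂ) (hx : 0 < x.re)
    (hdet : ‖(A + x • (1 : Matrix ι ι ℂ)).det‖ < x.re ^ (Fintype.card ι)) : ∃ μ ∈ spectrum ℂ A, μ.re < 0 := by
  by_contra hcon
  push Not at hcon
  have hcard : Multiset.card (A + x • (1 : Matrix ι ι ℂ)).charpoly.roots = Fintype.card ι := by
    rw [← Matrix.charpoly_natDegree_eq_dim (A + x • (1 : Matrix ι ι ℂ))]
    exact (Polynomial.splits_iff_card_roots.mp (IsAlgClosed.splits _))
  have hb := multiset_norm_bound hx.le (A + x • (1 : Matrix ι ι ℂ)).charpoly.roots (fun r hr => by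
    have h1 : r ∈ spectrum ℂ (A + x • (1 : Matrix ι ι ℂ)) := by
      rw [Matrix.mem_spectrum_iff_isRoot_charpoly]
      exact (Polynomial.mem_roots'.mp hr).2
    have h2 : r - x ∈ spectrum ℂ A := by
      rw [spectrum.mem_iff] at h1 ⊢
      have e : (algebraMap ℂ (Matrix ι ι ℂ)) (r - x) - A = (algebraMap ℂ (Matrix ι ι ℂ)) r - (A + x • (1 : Matrix ι ι ℂ)) := by
        rw [map_sub, Algebra.algebraMap_eq_smul_one x]
        abel
      rw [e]; exact h1
    have h3 := hcon _ h2
    rw [Complex.sub_re] at h3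
    calc x.re ≤ r.re := by linarith
      _ ≤ ‖r‖ := Complex.re_le_norm r)
  rw [hcard, ← Matrix.det_eq_prod_roots_charpoly] at hb
  linarith

/-! ### least real eigenvalues -/

theorem leastReal_eq {k : ℕ} {B : Matrix (Fin k) (Fin k) ℂ} {t : ℝ}
    (h : IsLeast {r : ℝ | (r : ℂ) ∈ spectrum ℂ B} t) : leastReal B = (t : EReal) := by
  apply le_antisymm
  · exact sInf_le ⟨t, rfl, h.1⟩
  · apply le_sInf
    rintro x ⟨r, rfl, hr⟩
    exact EReal.coe_le_coe_iff.mpr (h.2 hr)

theorem exists_least_root {F : ℝ → ℝ} (hc : Continuous F) {a b : ℝ} (hpos : ∀ t ≤ a, 0 < F t) (hb : F b < 0) :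
    ∃ t, IsLeast {r : ℝ | F r = 0} t ∧ a < t ∧ t < b := by
  have hab : a < b := by
    by_contra hcon
    exact absurd (hpos b (not_lt.mp hcon)) (not_lt.mpr hb.le)
  have hiv : ∃ r ∈ Set.Icc a b, F r = 0 := by
    have h := intermediate_value_Icc' hab.le (hc.continuousOn (s := Set.Icc a b))
    exact h ⟨hb.le, (hpos a le_rfl).le⟩
  have hcomp : IsCompact ({r : ℝ | F r = 0} ∩ Set.Icc a b) :=
    (isCompact_Icc).inter_left (isClosed_eq hc continuous_const)
  obtain ⟨r, hr, hr0⟩ := hiv
  obtain ⟨t, ht⟩ := hcomp.exists_isLeast ⟨r, hr0, hr⟩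
  refine ⟨t, ⟨ht.1.1, ?_⟩, ?_, ?_⟩
  · intro x hx
    by_cases hx0 : x ≤ a
    · exact absurd hx (hpos x hx0).ne'
    · by_cases hxb : x ≤ b
      · exact ht.2 ⟨hx, (not_le.mp hx0).le, hxb⟩
      · exact ht.1.2.2.trans (not_le.mp hxb).le
  · by_contra hcon
    exact absurd ht.1.1 (hpos t (not_lt.mp hcon)).ne'
  · refine lt_of_le_of_ne ht.1.2.2 ?_
    rintro rfl
    exact absurd ht.1.1 hb.ne

end Pool.Agent.Y70.SG
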