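import Mathlib
import Pool.Agent.Y70.SG.Tools

set_option autoImplicit false

namespace Pool.Agent.Y70.SG

open Matrix
open Pool.Agent.Results.MP_f9eabf_al.Four (piv pivL PNZ pprod PPb
  det_shift_zero mem_spectrum_of_det idx_card)

/-- the rational witness of order 5 -/
def W : Matrix (Fin 5) (Fin 5) ℚ := fun i j =>
  if j = 0 then 50625 else if i = 0 then 160 else if i = j then 161
  else if j < i then 160 - 1 / 1000000000
  else if i.val + 1 = j.val then 1 / 64000
  else if i.val + 2 = j.val then 1 / 1000000000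
  else 1 / 10000000000000

theorem W_selim : SElim W := by
  unfold SElim
  decide +kernel

/-- number of selected indices different from `0` -/
def cnt (b : Fin 5 → Bool) : ℕ := (b 1).toNat + (b 2).toNat + (b 3).toNat + (b 4).toNat

/-- lower thresholds -/
def lo (b : Fin 5 → Bool) : ℚ :=
  match b 0, cnt b with
  | true, 0 => 50600
  | true, 1 => 9 / 10
  | true, 2 => 1 / 10
  | true, 3 => 1 / 1000
  | true, _ => 0
  | false, 0 => 0
  | false, 1 => 161 - 1 / 1000000
  | false, 2 => 161 - (1 / 20 + 1 / 10000000)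
  | false, 3 => 161 - 3 / 40
  | false, _ => 160

/-- upper thresholds -/
def hi (b : Fin 5 → Bool) : ℚ :=
  match b 0, cnt b with
  | true, 0 => 50700
  | true, 1 => 1
  | true, 2 => 9 / 10
  | true, 3 => 1 / 10
  | true, _ => 1 / 1000
  | false, 0 => 0
  | false, 1 => 162
  | false, 2 => 161 - 1 / 1000000
  | false, 3 => 161 - (1 / 20 + 1 / 10000000)
  | false, _ => 161 - 3 / 40

/-- `W - t` -/
def sh (t : ℚ) : Matrix (Fin 5) (Fin 5) ℚ := fun i j => if i = j then W i j - t else W i j

theorem c1 : ∀ s g : Fin 5 → Bool, (∀ i, g i = true → s i = true) → PPb (sh (lo s)) (fl g) = true := by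
  decide +kernel

theorem c2 : ∀ s : Fin 5 → Bool, (∃ i, s i = true) →
    PNZb (sh (hi s)) (fl s) = true ∧ pprod (sh (hi s)) (fl s) < 0 := by
  decide +kernel

theorem c3 : ∀ s g : Fin 5 → Bool, (∃ i, g i = true) → (∀ i, g i = true → s i = true) → g ≠ s →
    hi s ≤ lo g := by
  decide +kernel

end Pool.Agent.Y70.SG
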