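import Mathlib
import Pool.Agent.Y70.SG.Wit

set_option autoImplicit false

namespace Pool.Agent.Y70.SG

open Matrix
open Pool.Agent.Results.MP_f9eabf_al.Four (piv pivL PNZ pprod PPb
  det_shift_zero mem_spectrum_of_det)

/-- the complex witness -/
noncomputable def WC : Matrix (Fin 5) (Fin 5) ℂ := W.map (fun q => (q : ℂ))

/-- the real witness -/
noncomputable def WR : Matrix (Fin 5) (Fin 5) ℝ := W.map (fun q => (q : ℝ))

theorem minor_rat {k : ℕ} (α β : Fin k ↪o Fin 5) :
    minor WC α β = (((W.submatrix α β).det : ℚ) : ℂ) := by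
  have h := (Rat.castHom ℂ).map_det (W.submatrix α β)
  change (((W.submatrix α β).det : ℚ) : ℂ) = _ at h
  rw [h]
  rfl

/-- the mask of an increasing sequence -/
def mask {k : ℕ} (α : Fin k ↪o Fin 5) : Fin 5 → Bool := fun i => decide (i ∈ idx α)

theorem mask_iff {k : ℕ} (α : Fin k ↪o Fin 5) (i : Fin 5) : mask α i = true ↔ i ∈ Set.range α := by
  simp [mask, idx]

theorem WC_P : IsPMatrix WC := by
  intro k α
  rw [minor_rat, det_of_mask' W α α.injective (mask α) (mask_iff α)
    (Pool.Agent.Results.MP_f9eabf_al.Four.PPb.pnz _ _ (W_selim _).1)]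
  refine ⟨Complex.ratCast_im _, ?_⟩
  rw [Complex.ratCast_re]
  exact_mod_cast PPb.pprod_pos _ _ (W_selim (mask α)).1

theorem WC_strict : IsStrictGKK WC := by
  refine ⟨WC_P, ?_⟩
  intro k α β hd
  rw [minor_rat, minor_rat, ← Rat.cast_mul]
  have h := almost_pos W_selim α β α.injective β.injective (by
    unfold idx at hd; omega)
  constructor
  · exact Complex.ratCast_im _
  · rw [Complex.ratCast_re]
    exact_mod_cast h

/-! ### real eigenvalues of the principal submatrices -/

/-- `det (W_b - t)` as a function of the mask `b` and the real number `t` -/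
noncomputable def D (b : Fin 5 → Bool) (t : ℝ) : ℝ :=
  ((WR + (-t) • (1 : Matrix (Fin 5) (Fin 5) ℝ)).submatrix (fl b).get (fl b).get).det

theorem D_cont (b : Fin 5 → Bool) : Continuous (D b) := by
  unfold D
  refine Continuous.matrix_det ?_
  refine Continuous.matrix_submatrix ?_ _ _
  refine Continuous.add continuous_const ?_
  refine continuous_matrix ?_
  intro i j
  simp only [Matrix.smul_apply, smul_eq_mul]
  fun_prop

theorem det_cast {κ : Type*} [Fintype κ] [DecidableEq κ] (M : Matrix κ κ ℚ) :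
    (M.map (fun q => (q : ℝ))).det = ((M.det : ℚ) : ℝ) := by
  have h := (Rat.castHom ℝ).map_det M
  change ((M.det : ℚ) : ℝ) = _ at h
  rw [h]
  rfl

theorem WR_shift (t : ℚ) : WR + (-(t : ℝ)) • (1 : Matrix (Fin 5) (Fin 5) ℝ) = (sh t).map (fun q => (q : ℝ)) := by
  ext i j
  simp only [WR, sh, Matrix.add_apply, Matrix.map_apply, Matrix.smul_apply, Matrix.one_apply, smul_eq_mul]
  split_ifs <;> push_cast <;> ring

theorem D_pos (b : Fin 5 → Bool) {t : ℝ} (ht : t ≤ lo b) : 0 < D b t := by
  unfold D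
  have hinj := List.nodup_iff_injective_get.mp (fl_nodup b)
  have e : (WR + (-t) • (1 : Matrix (Fin 5) (Fin 5) ℝ)).submatrix (fl b).get (fl b).get =
      ((sh (lo b)).map (fun q => (q : ℝ))).submatrix (fl b).get (fl b).get +
        ((lo b : ℝ) - t) • (1 : Matrix (Fin (fl b).length) (Fin (fl b).length) ℝ) := by
    rw [← WR_shift]
    ext i j
    simp only [Matrix.submatrix_apply, Matrix.add_apply, Matrix.smul_apply, Matrix.one_apply,
      smul_eq_mul, hinj.eq_iff]
    split_ifs <;> ring
  rw [e]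
  apply det_add_pos _ _ (by linarith)
  intro s
  have e2 : ((((sh (lo b)).map (fun q => (q : ℝ))).submatrix (fl b).get (fl b).get).submatrix
      (Subtype.val : s → Fin (fl b).length) (Subtype.val : s → Fin (fl b).length)) =
      (((sh (lo b)).submatrix (fun i : s => (fl b).get i) (fun i : s => (fl b).get i)).map (fun q => (q : ℝ))) := by
    ext i j; rfl
  rw [e2, det_cast]
  have hg := c1 b (fun i => decide (i ∈ Set.range (fun i : s => (fl b).get i))) (by
    intro i hi
    simp only [decide_eq_true_eq] at hi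
    obtain ⟨j, rfl⟩ := hi
    exact (mem_fl b _).1 (List.get_mem _ _))
  rw [det_of_mask' (sh (lo b)) (fun i : s => (fl b).get i) (fun x y hxy => Subtype.ext (hinj hxy))
    (fun i => decide (i ∈ Set.range (fun i : s => (fl b).get i))) (by intro i; simp)
    (Pool.Agent.Results.MP_f9eabf_al.Four.PPb.pnz _ _ hg)]
  exact_mod_cast PPb.pprod_pos _ _ hg

theorem D_neg (b : Fin 5 → Bool) (hb : ∃ i, b i = true) : D b (hi b) < 0 := by
  unfold D
  rw [WR_shift]
  have hinj := List.nodup_iff_injective_get.mp (fl_nodup b)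
  have e2 : (((sh (hi b)).map (fun q => (q : ℝ))).submatrix (fl b).get (fl b).get) =
      (((sh (hi b)).submatrix (fl b).get (fl b).get).map (fun q => (q : ℝ))) := by
    ext i j; rfl
  obtain ⟨h1, h2⟩ := c2 b hb
  rw [e2, det_cast, det_of_mask' (sh (hi b)) (fl b).get hinj b (by
    intro i; rw [range_fl]; rfl) (PNZb.pnz _ _ h1)]
  exact_mod_cast h2

theorem exists_ell (b : Fin 5 → Bool) (hb : ∃ i, b i = true) :
    ∃ t, IsLeast {r : ℝ | D b r = 0} t ∧ (lo b : ℝ) < t ∧ t < (hi b : ℝ) :=
  exists_least_root (D_cont b) (fun _ ht => D_pos b ht) (D_neg b hb)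

theorem spec_iff {k : ℕ} (α : Fin k ↪o Fin 5) (r : ℝ) :
    (r : ℂ) ∈ spectrum ℂ (WC.submatrix α α) ↔ D (mask α) r = 0 := by
  have e : (WC.submatrix α α + (-(r : ℂ)) • (1 : Matrix (Fin k) (Fin k) ℂ)).det = ((D (mask α) r : ℝ) : ℂ) := by
    unfold D
    rw [← det_of_mask (WR + (-r) • (1 : Matrix (Fin 5) (Fin 5) ℝ)) α α.injective (mask α) (mask_iff α)]
    have h := (Complex.ofRealHom).map_det ((WR + (-r) • (1 : Matrix (Fin 5) (Fin 5) ℝ)).submatrix α α)
    change ((((WR + (-r) • (1 : Matrix (Fin 5) (Fin 5) ℝ)).submatrix α α).det : ℝ) : ℂ) = _ at h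
    rw [h]
    congr 1
    ext i j
    simp only [WC, WR, Matrix.submatrix_apply, Matrix.add_apply, Matrix.smul_apply, Matrix.one_apply,
      Matrix.map_apply, RingHom.mapMatrix_apply, Complex.ofRealHom_eq_coe, smul_eq_mul, α.injective.eq_iff]
    split_ifs <;> push_cast <;> ring
  constructor
  · intro h
    have := det_shift_zero h
    rw [e] at this
    exact_mod_cast this
  · intro h
    apply mem_spectrum_of_det
    rw [e, h]; simp

theorem mask_ne {k : ℕ} (hk : 0 < k) (α : Fin k ↪o Fin 5) : ∃ i, mask α i = true :=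
  ⟨α ⟨0, hk⟩, (mask_iff α _).2 ⟨_, rfl⟩⟩

theorem leastReal_sub {k : ℕ} (α : Fin k ↪o Fin 5) {t : ℝ} (ht : IsLeast {r : ℝ | D (mask α) r = 0} t) :
    leastReal (WC.submatrix α α) = (t : EReal) := by
  apply leastReal_eq
  have e : {r : ℝ | (r : ℂ) ∈ spectrum ℂ (WC.submatrix α α)} = {r : ℝ | D (mask α) r = 0} := by
    ext r; exact spec_iff α r
  rw [e]; exact ht

theorem WC_tau : IsTau WC := by
  constructor
  · intro k m β α hk hsub
    have hkm : k ≤ m := by
      have := Finset.card_le_card hsub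
      rwa [idx, idx, Finset.card_image_of_injective _ β.injective,
        Finset.card_image_of_injective _ α.injective, Finset.card_univ, Finset.card_univ,
        Fintype.card_fin, Fintype.card_fin] at this
    obtain ⟨tβ, h1, h2, h3⟩ := exists_ell (mask β) (mask_ne hk β)
    obtain ⟨tα, k1, k2, k3⟩ := exists_ell (mask α) (mask_ne (hk.trans_le hkm) α)
    rw [leastReal_sub β h1, leastReal_sub α k1]
    refine ⟨?_, EReal.coe_lt_top _⟩
    by_cases hm : mask β = mask α
    · rw [hm] at h1
      rw [h1.unique k1]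
    · have hc := c3 (mask α) (mask β) (mask_ne hk β) (by
        intro i hi
        simp only [mask, decide_eq_true_eq] at hi ⊢
        exact hsub hi) hm
      have hc' : ((hi (mask α) : ℚ) : ℝ) ≤ ((lo (mask β) : ℚ) : ℝ) := by exact_mod_cast hc
      exact EReal.coe_le_coe_iff.mpr (by linarith)
  · obtain ⟨t, h1, h2, h3⟩ := exists_ell (mask (RelEmbedding.refl (α := Fin 5) (· ≤ ·)))
      (mask_ne (by norm_num) _)
    have := leastReal_sub _ h1
    have e : WC.submatrix (RelEmbedding.refl (α := Fin 5) (· ≤ ·)) (RelEmbedding.refl (α := Fin 5) (· ≤ ·)) = WC := by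
      ext i j; rfl
    rw [e] at this
    rw [this]
    have hl : lo (mask (RelEmbedding.refl (α := Fin 5) (· ≤ ·))) = 0 := by decide +kernel
    rw [hl] at h2
    exact_mod_cast (by exact_mod_cast h2.le : (0:ℝ) ≤ t)

/-! ### an eigenvalue with negative real part -/

/-- the cardinality of a set of indices -/
def crd (s : Finset (Fin 5)) : Fin 6 := ⟨s.card, Nat.lt_succ_of_le (by simpa using Finset.card_le_univ s)⟩

/-- the sums of the principal minors of a given order -/
def ev : Fin 6 → ℚ :=
  ![1, 51269, 3580259924996799840468770001/10000000000000000000000,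
      84984357681741202431209417711937510001/5000000000000000000000000000000,
      6721005413112680734334567079770803970505750000001/10000000000000000000000000000000000000000,
      806598519384166879852676096322675750000081/16000000000000000000000000000000000000]

theorem esum (k : Fin 6) : (∑ s ∈ (Finset.univ : Finset (Finset (Fin 5))).filter (fun s => crd s = k),
    pprod W (fl (fun i => decide (i ∈ s)))) = ev k := by
  revert k
  decide +kernel

theorem det_WC_add (x : ℂ) : (WC + x • (1 : Matrix (Fin 5) (Fin 5) ℂ)).det =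
    ∑ k : Fin 6, x ^ (5 - k.val) * ((ev k : ℚ) : ℂ) := by
  rw [det_add_smul_one_eq]
  rw [← Finset.sum_fiberwise (Finset.univ : Finset (Finset (Fin 5))) crd]
  refine Finset.sum_congr rfl fun k _ => ?_
  rw [← esum k]
  push_cast
  rw [Finset.mul_sum]
  refine Finset.sum_congr rfl fun s hs => ?_
  have hc : s.card = k.val := by
    have := (Finset.mem_filter.1 hs).2
    rw [← this]; rfl
  rw [Finset.card_compl, Fintype.card_fin, hc]
  congr 1
  have e : (WC.submatrix (Subtype.val : s → Fin 5) (Subtype.val : s → Fin 5)) =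
      (W.submatrix (Subtype.val : s → Fin 5) (Subtype.val : s → Fin 5)).map (fun q => (q : ℂ)) := by
    ext i j; rfl
  have h := (Rat.castHom ℂ).map_det (W.submatrix (Subtype.val : s → Fin 5) (Subtype.val : s → Fin 5))
  change (((W.submatrix (Subtype.val : s → Fin 5) (Subtype.val : s → Fin 5)).det : ℚ) : ℂ) = _ at h
  rw [e]
  refine Eq.trans h.symm ?_
  rw [det_of_mask' W (Subtype.val : s → Fin 5) Subtype.val_injective (fun i => decide (i ∈ s)) (by
    intro i; simp) (Pool.Agent.Results.MP_f9eabf_al.Four.PPb.pnz _ _ (W_selim _).1)]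

theorem WC_unstable : ∃ μ ∈ spectrum ℂ WC, μ.re < 0 := by
  apply unstable_of_det_small WC (⟨7, 24⟩ : ℂ) (by norm_num)
  rw [det_WC_add, Fintype.card_fin]
  have h2 : (⟨7, 24⟩ : ℂ) ^ 2 = ⟨-527, 336⟩ := by
    rw [pow_two]; apply Complex.ext <;> simp <;> norm_num
  have h3 : (⟨7, 24⟩ : ℂ) ^ 3 = ⟨-11753, -10296⟩ := by
    rw [pow_succ, h2]; apply Complex.ext <;> simp <;> norm_num
  have h4 : (⟨7, 24⟩ : ℂ) ^ 4 = ⟨164833, -354144⟩ := by
    rw [pow_succ, h3]; apply Complex.ext <;> simp <;> norm_num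
  have h5 : (⟨7, 24⟩ : ℂ) ^ 5 = ⟨9653287, 1476984⟩ := by
    rw [pow_succ, h4]; apply Complex.ext <;> simp <;> norm_num
  have hev : ∑ k : Fin 6, (⟨7, 24⟩ : ℂ) ^ (5 - k.val) * ((ev k : ℚ) : ℂ) =
      (⟨9653287 * (ev 0 : ℚ) + 164833 * (ev 1 : ℚ) - 11753 * (ev 2 : ℚ) - 527 * (ev 3 : ℚ) + 7 * (ev 4 : ℚ) + (ev 5 : ℚ),
        1476984 * (ev 0 : ℚ) - 354144 * (ev 1 : ℚ) - 10296 * (ev 2 : ℚ) + 336 * (ev 3 : ℚ) + 24 * (ev 4 : ℚ)⟩ : ℂ) := by
    simp only [Fin.sum_univ_succ, Fin.sum_univ_zero]
    simp only [Fin.val_zero, Fin.val_succ, Nat.sub_zero, Nat.sub_self]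
    norm_num [h2, h3, h4, h5]
    apply Complex.ext <;> simp <;> ring
  rw [hev]
  refine lt_of_le_of_lt (Complex.norm_le_abs_re_add_abs_im _) ?_
  have e0 : ev 0 = 1 := rfl
  have e1 : ev 1 = 51269 := rfl
  have e2 : ev 2 = 3580259924996799840468770001/10000000000000000000000 := rfl
  have e3 : ev 3 = 84984357681741202431209417711937510001/5000000000000000000000000000000 := rfl
  have e4 : ev 4 = 6721005413112680734334567079770803970505750000001/10000000000000000000000000000000000000000 := rfl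
  have e5 : ev 5 = 806598519384166879852676096322675750000081/16000000000000000000000000000000000000 := rfl
  rw [e0, e1, e2, e3, e4, e5]
  push_cast
  rw [show ∀ a b : ℝ, (|a| + |b| < 7 ^ 5) = (|b| < 7 ^ 5 - |a|) from fun a b => by
    rw [eq_iff_iff]; constructor <;> intro h <;> linarith]
  norm_num [abs_of_neg, abs_of_pos, abs_lt]

end Pool.Agent.Y70.SG
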